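import Mathlib

set_option autoImplicit false

namespace Pool.Agent.L0h62.CL

open Finset

/-- A quadratic polynomial has at most two roots modulo a prime. -/
theorem roots_le (a0 b0 c : ℤ) (h p : ℕ) (hp : p.Prime) (h0 : ¬ (p : ℤ) ∣ a0) :
    ((range p).filter (fun τ : ℕ => (p : ℤ) ∣ c + (a0 * ((τ : ℤ) + h) ^ 2 + b0 * ((τ : ℤ) + h)))).card ≤ 2 := by
  classical
  haveI : Fact p.Prime := ⟨hp⟩
  let F : Polynomial (ZMod p) := Polynomial.C (a0 : ZMod p) * Polynomial.X ^ 2 +
    Polynomial.C (b0 : ZMod p) * Polynomial.X + Polynomial.C (c : ZMod p)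
  have ha : (a0 : ZMod p) ≠ 0 := by
    intro h
    exact h0 ((ZMod.intCast_zmod_eq_zero_iff_dvd a0 p).1 h)
  have hdeg : F.natDegree = 2 := Polynomial.natDegree_quadratic ha
  have hF : F ≠ 0 := by
    intro h
    rw [h] at hdeg
    simp at hdeg
  have hcard : F.roots.toFinset.card ≤ 2 :=
    (Multiset.toFinset_card_le _).trans ((Polynomial.card_roots' F).trans hdeg.le)
  refine le_trans (card_le_card_of_injOn (fun τ : ℕ => ((τ : ZMod p) + (h : ZMod p))) ?_ ?_) hcard
  · intro τ hτ
    have h1 := (mem_filter.1 (mem_coe.1 hτ)).2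
    rw [mem_coe, Multiset.mem_toFinset, Polynomial.mem_roots hF]
    have h2 := (ZMod.intCast_zmod_eq_zero_iff_dvd _ p).2 h1
    push_cast at h2
    show Polynomial.eval _ F = 0
    simp only [F, Polynomial.eval_add, Polynomial.eval_mul, Polynomial.eval_C, Polynomial.eval_pow,
      Polynomial.eval_X]
    linear_combination h2
  · intro τ hτ σ hσ he
    have h1 := mem_range.1 (mem_filter.1 (mem_coe.1 hτ)).1
    have h2 := mem_range.1 (mem_filter.1 (mem_coe.1 hσ)).1
    have h3 : (τ : ZMod p) = (σ : ZMod p) := add_right_cancel he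
    rw [ZMod.natCast_eq_natCast_iff] at h3
    exact Nat.ModEq.eq_of_lt_of_lt h3 h1 h2

end Pool.Agent.L0h62.CL
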