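import Pool.Agent.L0h42.CL.Stm
import Pool.Agent.L0h62.CL.Rt

/-! Module CNT of the project CL (owner helper42). -/

set_option autoImplicit false

namespace Pool.Agent.L0h62.CL

open Finset
open Pool.Agent.L0h42.CL
open Pool.Agent.L0h42.TB
open Pool.Agent.H373R2.T7

/-- congruent arguments -/
theorem gz_mod (a0 b0 : ℤ) (h : ℕ) (m : ℤ) (s t : ℤ) (hst : m ∣ s - t) :
    m ∣ gz a0 b0 (s + h) - gz a0 b0 (t + h) := by
  unfold gz
  have : a0 * (s + h) ^ 2 + b0 * (s + h) - (a0 * (t + h) ^ 2 + b0 * (t + h)) =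
      (s - t) * (a0 * (s + t + 2 * h) + b0) := by ring
  rw [this]
  exact Dvd.dvd.mul_right hst _

theorem dvd_iff_mod {k : ℕ} (a0 b0 : ℤ) (h : Fin k → ℕ) (l : Fin k) (m : ℤ) (a : ℕ) (s t : ℤ)
    (hst : m ∣ s - t) : m ∣ (a : ℤ) - cq a0 b0 h s l ↔ m ∣ (a : ℤ) - cq a0 b0 h t l := by
  have h1 := gz_mod a0 b0 (h l) m s t hst
  have h2 : (a : ℤ) - cq a0 b0 h s l = ((a : ℤ) - cq a0 b0 h t l) +
      (gz a0 b0 (s + h l) - gz a0 b0 (t + h l)) := by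
    unfold cq; ring
  rw [h2]
  exact ⟨fun h => (dvd_add_left h1).1 h, fun h => (dvd_add_left h1).2 h⟩

theorem som_mod' {k : ℕ} (a0 b0 : ℤ) (h : Fin k → ℕ) (p a t : ℕ) :
    Som (cq a0 b0 h ((t % p : ℕ) : ℤ)) p a ↔ Som (cq a0 b0 h (t : ℤ)) p a := by
  unfold Som
  refine exists_congr fun l => dvd_iff_mod a0 b0 h l p a _ _ ?_
  have := Nat.div_add_mod t p
  refine ⟨-((t / p : ℕ) : ℤ), ?_⟩
  have h2 : (t : ℤ) = p * ((t / p : ℕ) : ℤ) + ((t % p : ℕ) : ℤ) := by exact_mod_cast this.symm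
  linarith

theorem hit_mod {k : ℕ} (a0 b0 : ℤ) (h : Fin k → ℕ) (d : Fin k → ℕ) (D a : ℕ) (hD : ∀ l, d l ∣ D)
    (s t : ℕ) (hst : s % D = t % D) : Hit (cq a0 b0 h (s : ℤ)) d a ↔ Hit (cq a0 b0 h (t : ℤ)) d a := by
  unfold Hit
  refine forall_congr' fun l => dvd_iff_mod a0 b0 h l (d l) a _ _ ?_
  have h1 : (D : ℤ) ∣ (s : ℤ) - t := by
    have : s ≡ t [MOD D] := hst
    exact (Nat.modEq_iff_dvd.1 this.symm)
  exact (Int.natCast_dvd_natCast.2 (hD l)).trans h1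

theorem nuq_le {k : ℕ} (K : ℕ) (a0 b0 : ℤ) (h : Fin k → ℕ) (p a : ℕ) (hp : p.Prime) (ha : 1 ≤ a0)
    (hK : 2 * k + a0.toNat ≤ K) : nuq a0 b0 h p a ≤ K := by
  classical
  unfold nuq
  by_cases h0 : (p : ℤ) ∣ a0
  · have h1 : (p : ℤ) ≤ a0 := Int.le_of_dvd (by omega) h0
    have h2 : p ≤ a0.toNat := by omega
    exact (card_filter_le _ _).trans (by rw [card_range]; omega)
  · have h1 : (range p).filter (fun τ : ℕ => Som (cq a0 b0 h (τ : ℤ)) p a) ⊆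
        (univ : Finset (Fin k)).biUnion fun l => (range p).filter
          (fun τ : ℕ => (p : ℤ) ∣ (a : ℤ) + (a0 * ((τ : ℤ) + h l) ^ 2 + b0 * ((τ : ℤ) + h l))) := by
      intro τ hτ
      obtain ⟨h2, l, hl⟩ := mem_filter.1 hτ
      refine mem_biUnion.2 ⟨l, mem_univ _, mem_filter.2 ⟨h2, ?_⟩⟩
      have : (a : ℤ) + (a0 * ((τ : ℤ) + h l) ^ 2 + b0 * ((τ : ℤ) + h l)) =
          (a : ℤ) - cq a0 b0 h (τ : ℤ) l := by
        unfold cq gz; ring
      rw [this]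
      exact hl
    refine (card_le_card h1).trans (card_biUnion_le.trans ?_)
    refine (sum_le_sum fun l _ => roots_le a0 b0 a (h l) p hp h0).trans ?_
    rw [sum_const, card_univ, Fintype.card_fin, smul_eq_mul]
    omega

/-- the count, core -/
theorem cnt_core (hG : S_GC) (k K : ℕ) (a0 b0 : ℤ) (h : Fin k → ℕ) (z r T1 T2 a : ℕ) (ha : 1 ≤ a0)
    (hK1 : 1 ≤ K) (hK : 2 * k + a0.toNat ≤ K) (hT : T1 ≤ T2) (x : (Fin k → ℕ) × (Fin k → ℕ))
    (h1 : ∀ l, 1 ≤ lc x l) (h2 : ∀ l, ∀ p ∈ pz z, ¬ p ∣ lc x l) :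
    |((TR a0 b0 h T1 T2 z (lc x) a).card : ℝ) - roq a0 b0 h x a * (((T2 : ℝ) - T1) / mo x * Vq a0 b0 h z a)| ≤
      roq a0 b0 h x a * (2 * (((z : ℝ) + 1) ^ r * (K : ℝ) ^ r) + 4 * (((T2 : ℝ) - T1) / mo x) * Real.exp (3 * (K * (1 + Real.log z)) - r)) := by
  classical
  have hD : 1 ≤ mo x := Nat.pos_of_ne_zero (prod_ne_zero_iff.2 fun l _ => by have := h1 l; omega)
  have hdvd : ∀ l, lc x l ∣ mo x := fun l => dvd_prod_of_mem _ (mem_univ l)
  have hpz : ∀ p ∈ pz z, p.Prime := fun p hp => (mem_filter.1 hp).2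
  have hpD : ∀ p ∈ pz z, ¬ p ∣ mo x := by
    intro p hp hd
    obtain ⟨l, -, hl⟩ := (Prime.dvd_finsetProd_iff (hpz p hp).prime _).1 hd
    exact h2 l p hp hl
  let P : ℕ → ℕ → Prop := fun p t => Som (cq a0 b0 h (t : ℤ)) p a
  let I : Finset ℕ := (range (mo x)).filter (fun τ : ℕ => Hit (cq a0 b0 h τ) (lc x) a)
  have hroq : roq a0 b0 h x a = I.card := by
    unfold roq
    congr 1
  have hsplit : (TR a0 b0 h T1 T2 z (lc x) a).card = ∑ τ ∈ I,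
      ((Ioc T1 T2).filter (fun t => t % mo x = τ % mo x ∧ ∀ p ∈ pz z, ¬ P p t)).card := by
    rw [card_eq_sum_card_fiberwise (f := fun t => t % mo x) (t := I)]
    · refine sum_congr rfl fun τ hτ => ?_
      have hτ1 : τ < mo x := mem_range.1 (mem_filter.1 hτ).1
      have hτ2 := (mem_filter.1 hτ).2
      congr 1
      ext t
      unfold TR
      simp only [mem_filter]
      constructor
      · rintro ⟨⟨h3, h4, h5⟩, h6⟩
        exact ⟨h3, by rw [h6, Nat.mod_eq_of_lt hτ1], h5⟩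
      · rintro ⟨h3, h4, h5⟩
        rw [Nat.mod_eq_of_lt hτ1] at h4
        refine ⟨⟨h3, ?_, h5⟩, h4⟩
        refine (hit_mod a0 b0 h (lc x) (mo x) a hdvd t τ ?_).2 hτ2
        rw [h4, Nat.mod_eq_of_lt hτ1]
    · intro t ht
      have ht' := (mem_filter.1 (mem_coe.1 ht)).2.1
      refine mem_coe.2 (mem_filter.2 ⟨mem_range.2 (Nat.mod_lt _ hD), ?_⟩)
      exact (hit_mod a0 b0 h (lc x) (mo x) a hdvd _ _ (Nat.mod_mod _ _)).2 ht'
  set M : ℝ := ((T2 : ℝ) - T1) / mo x * Vq a0 b0 h z a with hM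
  set Er : ℝ := 2 * (((z : ℝ) + 1) ^ r * (K : ℝ) ^ r) + 4 * (((T2 : ℝ) - T1) / mo x) * Real.exp (3 * (K * (1 + Real.log z)) - r) with hEr
  have hone : ∀ τ ∈ I, |((((Ioc T1 T2).filter (fun t => t % mo x = τ % mo x ∧ ∀ p ∈ pz z, ¬ P p t)).card : ℕ) : ℝ) - M| ≤ Er := by
    intro τ _
    have h3 := hG P (mo x) τ z T1 T2 r K hK1 hD hpD hT
      (fun p _ t => som_mod' a0 b0 h p a t) (fun p hp => by
        have := nuq_le K a0 b0 h p a (hpz p hp) ha hK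
        unfold nuq at this
        convert this)
    rw [hM, hEr]
    convert h3 using 6
    unfold Vq
    refine prod_congr rfl fun p _ => ?_
    have h4 : nuq a0 b0 h p a = ((range p).filter (P p)).card := by
      unfold nuq
      congr 1
    rw [h4]
  have hsum : ((TR a0 b0 h T1 T2 z (lc x) a).card : ℝ) - roq a0 b0 h x a * M =
      ∑ τ ∈ I, (((((Ioc T1 T2).filter (fun t => t % mo x = τ % mo x ∧ ∀ p ∈ pz z, ¬ P p t)).card : ℕ) : ℝ) - M) := by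
    rw [sum_sub_distrib, sum_const, nsmul_eq_mul, hroq, hsplit]
    push_cast
    rfl
  rw [hsum, hroq]
  refine (abs_sum_le_sum_abs _ _).trans ((sum_le_sum hone).trans ?_)
  rw [sum_const, nsmul_eq_mul]

theorem t_CNT (hG : S_GC) : S_CNT := by
  classical
  intro k K a0 b0 h z R r T1 T2 a ha hK1 hK hT x hx
  have hx1 := (mem_filter.1 hx).1
  obtain ⟨h1, h2⟩ := mem_product.1 hx1
  obtain ⟨a1, a2, -⟩ := lc_rough h1 h2
  exact cnt_core hG k K a0 b0 h z r T1 T2 a ha hK1 hK hT x a1 a2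

end Pool.Agent.L0h62.CL
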